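import Pool.Agent.helper37.CZ.Spec

/-!
# Project cz, row INT: integrality
-/

set_option autoImplicit false
set_option linter.unusedVariables false

open scoped Matrix Topology ComplexConjugate
open Filter

namespace Pool.Agent.CZ

theorem INT_gen {X : Type} [TopologicalSpace X] (α : X ≃ₜ X) (w' : C(X, ℂ)) (h' : C(X, ℂ))
    (hw : ∀ x, w' x ≠ 0)
    (hr : ∀ x, w' (α x) = Complex.exp (2 * Real.pi * Complex.I * h' x) * w' x) :
    ∃ (w : C(X, ℂ)) (h : C(X, ℝ)), Rot α w h ∧ h' - rc h ∈ Bd α := by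
  have hn : ∀ x, ‖w' x‖ ≠ 0 := fun x => norm_ne_zero_iff.2 (hw x)
  have habs : ∀ x, ‖w' (α x)‖ = Real.exp (-(2 * Real.pi * (h' x).im)) * ‖w' x‖ := by
    intro x
    rw [hr, norm_mul, Complex.norm_exp]
    congr 2
    simp
  refine ⟨⟨fun x => w' x / (‖w' x‖ : ℂ), ?_⟩, ⟨fun x => (h' x).re, ?_⟩, ⟨?_, ?_⟩, ?_⟩
  · exact w'.continuous.div (Complex.continuous_ofReal.comp w'.continuous.norm)
      (fun x => by exact_mod_cast hn x)
  · exact Complex.continuous_re.comp h'.continuous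
  · intro x
    show ‖w' x / (‖w' x‖ : ℂ)‖ = 1
    rw [norm_div, Complex.norm_real, norm_norm, div_self (hn x)]
  · intro x
    show w' (α x) / (‖w' (α x)‖ : ℂ) =
      Complex.exp (2 * Real.pi * Complex.I * ((h' x).re : ℂ)) * (w' x / (‖w' x‖ : ℂ))
    rw [habs, hr]
    have h1 : Complex.exp (2 * Real.pi * Complex.I * h' x) =
        Complex.exp (2 * Real.pi * Complex.I * ((h' x).re : ℂ)) *
          (Real.exp (-(2 * Real.pi * (h' x).im)) : ℂ) := by
      rw [Complex.ofReal_exp, ← Complex.exp_add]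
      congr 1
      conv_lhs => rw [← Complex.re_add_im (h' x)]
      push_cast
      linear_combination (2 * (Real.pi : ℂ) * ((h' x).im : ℂ)) * Complex.I_mul_I
    rw [h1]
    have h2 : (Real.exp (-(2 * Real.pi * (h' x).im)) : ℂ) ≠ 0 := by
      exact_mod_cast (Real.exp_pos _).ne'
    have h3 : (‖w' x‖ : ℂ) ≠ 0 := by exact_mod_cast hn x
    rw [Complex.ofReal_mul]
    field_simp
  · refine ⟨⟨fun x => -(Complex.I / (2 * Real.pi)) * (Real.log ‖w' x‖ : ℂ), ?_⟩, ?_⟩
    · exact continuous_const.mul (Complex.continuous_ofReal.comp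
        (w'.continuous.norm.log hn))
    · intro x
      show h' x - ((h' x).re : ℂ) = -(Complex.I / (2 * Real.pi)) * (Real.log ‖w' (α x)‖ : ℂ) -
        -(Complex.I / (2 * Real.pi)) * (Real.log ‖w' x‖ : ℂ)
      rw [habs, Real.log_mul (Real.exp_pos _).ne' (hn x), Real.log_exp]
      have hpi : (Real.pi : ℂ) ≠ 0 := by exact_mod_cast Real.pi_ne_zero
      conv_lhs => rw [← Complex.re_add_im (h' x)]
      simp only [Complex.add_re, Complex.ofReal_re, Complex.mul_re, Complex.I_re, mul_zero,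
        Complex.ofReal_im, Complex.I_im, mul_one, sub_self, add_zero]
      push_cast
      field_simp
      ring

theorem INT (h1 : KSM_stmt) (h2 : KER_stmt) (h3 : INK_stmt) : INT_stmt := by
  intro X _ _ α A _ ι u c hcov hmin D hD g
  have hone : ∀ p : IdemMat A, ∃ (w : C(X, ℂ)) (h : C(X, ℝ)), Rot α w h ∧
      D (cls p) = QuotientAddGroup.mk (rc h) := by
    intro p
    obtain ⟨q, -, hq, -, hpq⟩ := h1 X α A ι u c hcov p
    have hker := h2 X α A ι u c hcov q.n q.e q.idem hq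
    obtain ⟨w', hw', hr⟩ := h3 X α hmin q.n _ hker
    have htr : ∀ x, trE (fun x (p : ℤ × Fin q.n) (p' : ℤ × Fin q.n) =>
        c (p.1 - p'.1) (q.e p.2 p'.2) ((α ^ p.1) x)) x = (∑ i, c 0 (q.e i i)) x := by
      intro x
      rw [ContinuousMap.sum_apply]
      rfl
    obtain ⟨w, h, hrot, hbd⟩ := INT_gen α w' (∑ i, c 0 (q.e i i)) hw' (fun x => by
      rw [← htr x]
      exact hr x)
    refine ⟨w, h, hrot, ?_⟩
    rw [hpq, hD q hq, QuotientAddGroup.eq]
    have h4 := (Bd α).neg_mem hbd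
    rwa [neg_sub, sub_eq_neg_add] at h4
  have hzero : ∃ (w : C(X, ℂ)) (h : C(X, ℝ)), Rot α w h ∧ D 0 = QuotientAddGroup.mk (rc h) := by
    refine ⟨1, 0, ⟨fun x => by simp, fun x => by simp⟩, ?_⟩
    rw [map_zero]
    symm
    have h5 : rc (0 : C(X, ℝ)) = 0 := by
      ext x
      show ((0 : ℝ) : ℂ) = 0
      simp
    rw [h5]
    rfl
  have hneg : ∀ g, (∃ (w : C(X, ℂ)) (h : C(X, ℝ)), Rot α w h ∧ D g = QuotientAddGroup.mk (rc h)) →
      ∃ (w : C(X, ℂ)) (h : C(X, ℝ)), Rot α w h ∧ D (-g) = QuotientAddGroup.mk (rc h) := by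
    rintro g ⟨w, h, ⟨hw1, hw2⟩, hg⟩
    refine ⟨star w, -h, ⟨fun x => ?_, fun x => ?_⟩, ?_⟩
    · rw [ContinuousMap.star_apply, norm_star, hw1]
    · rw [ContinuousMap.star_apply, ContinuousMap.star_apply, hw2]
      show conj _ = _ * conj _
      rw [map_mul, ← Complex.exp_conj]
      congr 2
      rw [map_mul, map_mul, map_mul, Complex.conj_I, Complex.conj_ofReal, Complex.conj_ofReal,
        ContinuousMap.neg_apply, Complex.ofReal_neg]
      have h6 : conj (2 : ℂ) = 2 := Complex.conj_ofNat 2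
      rw [h6]
      ring
    · rw [map_neg, hg, ← QuotientAddGroup.mk_neg]
      congr 1
      ext x
      show -((h x : ℝ) : ℂ) = (((-h) x : ℝ) : ℂ)
      rw [ContinuousMap.neg_apply, Complex.ofReal_neg]
  have hadd : ∀ g g', (∃ (w : C(X, ℂ)) (h : C(X, ℝ)), Rot α w h ∧ D g = QuotientAddGroup.mk (rc h)) →
      (∃ (w : C(X, ℂ)) (h : C(X, ℝ)), Rot α w h ∧ D g' = QuotientAddGroup.mk (rc h)) →
      ∃ (w : C(X, ℂ)) (h : C(X, ℝ)), Rot α w h ∧ D (g + g') = QuotientAddGroup.mk (rc h) := by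
    rintro g g' ⟨w, h, ⟨hw1, hw2⟩, hg⟩ ⟨w', h', ⟨hw1', hw2'⟩, hg'⟩
    refine ⟨w * w', h + h', ⟨fun x => ?_, fun x => ?_⟩, ?_⟩
    · rw [ContinuousMap.mul_apply, norm_mul, hw1, hw1', mul_one]
    · rw [ContinuousMap.mul_apply, ContinuousMap.mul_apply, hw2, hw2', ContinuousMap.add_apply,
        Complex.ofReal_add, mul_add, Complex.exp_add]
      ring
    · rw [map_add, hg, hg', ← QuotientAddGroup.mk_add]
      congr 1
      ext x
      show ((h x : ℝ) : ℂ) + ((h' x : ℝ) : ℂ) = (((h + h') x : ℝ) : ℂ)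
      rw [ContinuousMap.add_apply, Complex.ofReal_add]
  induction g using QuotientAddGroup.induction_on with
  | H z =>
    induction z using FreeAbelianGroup.induction_on with
    | zero => exact hzero
    | of p => exact hone p
    | neg p hp => exact hneg _ hp
    | add a b ha hb => exact hadd _ _ ha hb

end Pool.Agent.CZ
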